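import Pool.Agent.H437R3.IsoC

set_option autoImplicit false

/-!
There is a class `K` of structures, closed under isomorphism and with hyperarithmetic index set,
whose isomorphism problem `E(K)` is `Σ¹₁` and not `Δ¹₁`, but not `Σ¹₁`-complete: even some
hyperarithmetic set is not many-one reducible to `E(K)`.

The structures in `K` are expansions, by one unary predicate, of a fixed computable structure
which is computably categorical but has automorphisms only along the infinite paths of a tree
(`Pool.Agent.Helper941.Hyp`). So isomorphism can be decided hyperarithmetically up to the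
question whether a certain node of the tree is on a path. The nodes used by `K` are chosen by
a finite injury free diagonalization against the computable functions which might reduce a
hyperarithmetic set to `E(K)`.
-/

namespace Pool.Agent.Results.MP_be00aa_lc.ProperNotComplete

open Pool.Agent.Helper941.IsoProb Pool.Agent.Helper941.Hyp

/-- `P` is `Σ¹₁`-complete: it is `Σ¹₁` and every `Σ¹₁` set of natural numbers is many-one
reducible to it by a computable function. -/
def Sigma11Complete {α : Type} [Primcodable α] (P : α → Prop) : Prop :=
  Sigma11 P ∧ ∀ S : ℕ → Prop, Sigma11 S → ManyOneReducible S P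

/-- There are a computable relational language and a class `K` of structures, closed under
isomorphism and with `Δ¹₁` index set, such that the isomorphism problem of `K` is `Σ¹₁`, not
`Δ¹₁`, and not `Σ¹₁`-complete; in fact not every `Δ¹₁` set is reducible to it. -/
theorem result : ∃ (ar : ℕ → ℕ) (_ : Computable ar) (K : Set (Str ar)),
    (∀ A ∈ K, ∀ B, A.Iso B → B ∈ K) ∧ Delta11 (IndexSet K) ∧
    Sigma11 (IsoProblem K) ∧ ¬ Delta11 (IsoProblem K) ∧
    ¬ Sigma11Complete (IsoProblem K) ∧
    ∃ S : ℕ → Prop, Delta11 S ∧ ¬ ManyOneReducible S (IsoProblem K) := by
  obtain ⟨ar, har, K, h1, h2, h3, h4, S, h5, h6⟩ := Pool.Agent.H437R3.Iso.main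
  exact ⟨ar, har, K, h1, h2, h3, h4, fun h => h6 (h.2 S h5.1), S, h5, h6⟩

end Pool.Agent.Results.MP_be00aa_lc.ProperNotComplete
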